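import Pool.Agent.helper64.D2.SpecC

/-!
# Project dc: module RAT
-/

set_option autoImplicit false

open Filter Topology
open scoped commutatorElement

namespace Pool.Agent.helper64.D2

theorem RAT_d1 (u : ℝ → ℝ) (hu : ContDiff ℝ 2 u) (x : ℝ) : HasDerivAt u (deriv u x) x :=
  ((hu.differentiable (by norm_num)) x).hasDerivAt

theorem RAT_c1 (u : ℝ → ℝ) (hu : ContDiff ℝ 2 u) : ContDiff ℝ 1 (deriv u) := by
  have h : ContDiff ℝ (1 + 1) u := by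
    have e : (1 + 1 : WithTop ℕ∞) = 2 := by norm_num
    rw [e]; exact hu
  exact (contDiff_succ_iff_deriv.1 h).2.2

theorem RAT_d2 (u : ℝ → ℝ) (hu : ContDiff ℝ 2 u) (x : ℝ) : HasDerivAt (deriv u) (d2 u x) x :=
  (((RAT_c1 u hu).differentiable (by norm_num)) x).hasDerivAt

theorem RAT_mv (f : ℝ → ℝ) (f' : ℝ → ℝ) (hf : ∀ x, HasDerivAt f (f' x) x) (K : ℝ) (hK : ∀ x, |f' x| ≤ K) (x y : ℝ) :
    |f x - f y| ≤ K * |x - y| := by
  have h := (convex_univ (𝕜 := ℝ) (E := ℝ)).norm_image_sub_le_of_norm_hasDerivWithin_le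
    (f := f) (f' := f') (C := K) (fun z _ => (hf z).hasDerivWithinAt) (fun z _ => hK z) (Set.mem_univ y) (Set.mem_univ x)
  simpa [Real.norm_eq_abs] using h

/-- The arithmetic of the Lipschitz estimate. -/
theorem RAT_lip (L h Du Dv D2u D2v Cu Cv s t : ℝ) (hL : 0 ≤ L) (hh : 0 ≤ h) (h1 : |D2u - D2v| ≤ 2 * L * (8 / 7 * h))
    (h2 : |Cu - Cv| ≤ L * (8 / 7 * h)) (h3 : |Du - Dv| ≤ 1 / 4 * (8 / 7 * h)) (h4 : |s - t| ≤ 3 / 16 * h)
    (hs0 : 0 < s) (hs1 : s ≤ 8 / 7) (ht0 : 0 < t) (ht1 : t ≤ 8 / 7) (h5 : |D2v| ≤ 1 / 4) (h6 : |Cu| ≤ 1 / 8) (h6' : |Cv| ≤ 1 / 8)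
    (h7 : |Dv| ≤ 1 / 4) :
    |(D2u * s ^ 2 - Du * Cu * s ^ 3) - (D2v * t ^ 2 - Dv * Cv * t ^ 3)| ≤ (6 * L + 1) * h := by
  have hs2 : s ^ 2 ≤ 64 / 49 := by nlinarith
  have hs3 : s ^ 3 ≤ 512 / 343 := by
    have : s ^ 3 = s ^ 2 * s := by ring
    rw [this]
    calc s ^ 2 * s ≤ 64 / 49 * (8 / 7) := mul_le_mul hs2 hs1 hs0.le (by norm_num)
      _ = 512 / 343 := by norm_num
  have hst : |s ^ 2 - t ^ 2| ≤ 3 / 7 * h := by
    have e : s ^ 2 - t ^ 2 = (s - t) * (s + t) := by ring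
    rw [e, abs_mul, abs_of_pos (by linarith : 0 < s + t)]
    calc |s - t| * (s + t) ≤ (3 / 16 * h) * (16 / 7) := mul_le_mul h4 (by linarith) (by linarith) (by positivity)
      _ = 3 / 7 * h := by ring
  have hst3 : |s ^ 3 - t ^ 3| ≤ h := by
    have e : s ^ 3 - t ^ 3 = (s - t) * (s ^ 2 + s * t + t ^ 2) := by ring
    have hp : 0 < s ^ 2 + s * t + t ^ 2 := by positivity
    have ht2 : t ^ 2 ≤ 64 / 49 := by nlinarith
    have hm : s * t ≤ 64 / 49 := by nlinarith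
    rw [e, abs_mul, abs_of_pos hp]
    calc |s - t| * (s ^ 2 + s * t + t ^ 2) ≤ (3 / 16 * h) * (3 * (64 / 49)) :=
          mul_le_mul h4 (by linarith) hp.le (by positivity)
      _ ≤ h := by nlinarith
  have a1 : |(D2u - D2v) * s ^ 2| ≤ 2 * L * (8 / 7 * h) * (64 / 49) := by
    rw [abs_mul, abs_of_pos (by positivity : 0 < s ^ 2)]
    exact mul_le_mul h1 hs2 (by positivity) (by positivity)
  have a2 : |D2v * (s ^ 2 - t ^ 2)| ≤ 1 / 4 * (3 / 7 * h) := by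
    rw [abs_mul]
    exact mul_le_mul h5 hst (abs_nonneg _) (by norm_num)
  have a3 : |(Du - Dv) * Cu * s ^ 3| ≤ 1 / 4 * (8 / 7 * h) * (1 / 8) * (512 / 343) := by
    rw [abs_mul, abs_mul, abs_of_pos (by positivity : 0 < s ^ 3)]
    exact mul_le_mul (mul_le_mul h3 h6 (abs_nonneg _) (by positivity)) hs3 (by positivity) (by positivity)
  have a4 : |Dv * (Cu - Cv) * s ^ 3| ≤ 1 / 4 * (L * (8 / 7 * h)) * (512 / 343) := by
    rw [abs_mul, abs_mul, abs_of_pos (by positivity : 0 < s ^ 3)]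
    exact mul_le_mul (mul_le_mul h7 h2 (abs_nonneg _) (by norm_num)) hs3 (by positivity) (by positivity)
  have a5 : |Dv * Cv * (s ^ 3 - t ^ 3)| ≤ 1 / 4 * (1 / 8) * h := by
    rw [abs_mul, abs_mul]
    exact mul_le_mul (mul_le_mul h7 h6' (abs_nonneg _) (by norm_num)) hst3 (abs_nonneg _) (by norm_num)
  have e : (D2u * s ^ 2 - Du * Cu * s ^ 3) - (D2v * t ^ 2 - Dv * Cv * t ^ 3)
      = (D2u - D2v) * s ^ 2 + D2v * (s ^ 2 - t ^ 2) - (Du - Dv) * Cu * s ^ 3 - Dv * (Cu - Cv) * s ^ 3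
        - Dv * Cv * (s ^ 3 - t ^ 3) := by ring
  have hLh : 0 ≤ L * h := mul_nonneg hL hh
  rw [e, abs_le]
  have b1 := abs_le.1 a1
  have b2 := abs_le.1 a2
  have b3 := abs_le.1 a3
  have b4 := abs_le.1 a4
  have b5 := abs_le.1 a5
  constructor
  · nlinarith [b1.1, b2.1, b3.2, b4.2, b5.2]
  · nlinarith [b1.2, b2.2, b3.1, b4.1, b5.1]

theorem RAT (hBAS : BAS_stmt) : RAT_stmt := by
  intro g c X C p q a hg hc hX hC hsupp hd2 hp hpq hq ha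
  have ha0 : 0 ≤ a := (abs_nonneg _).trans (hd2 0).1
  have hqp0 : 0 ≤ q - p := by linarith
  have hqp1 : q - p ≤ 1 := by linarith
  have haq : a * (q - p) ≤ 1 / 8 := by nlinarith
  obtain ⟨hX1, hX0, -, -⟩ := hBAS X p q a hX (fun x hx => (hsupp x hx).1) (fun x => (hd2 x).1) hpq
  obtain ⟨hC1, hC0, -, -⟩ := hBAS C p q a hC (fun x hx => (hsupp x hx).2) (fun x => (hd2 x).2) hpq
  have hX1' : ∀ x, |deriv X x| ≤ 1 / 8 := fun x => (hX1 x).trans haq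
  have hC1' : ∀ x, |deriv C x| ≤ 1 / 8 := fun x => (hC1 x).trans haq
  have hX2' : ∀ x, |d2 X x| ≤ 1 / 8 := fun x => (hd2 x).1.trans ha
  have hC2' : ∀ x, |d2 C x| ≤ 1 / 8 := fun x => (hd2 x).2.trans ha
  -- φ
  have hφ : ContDiff ℝ 2 (ev c⁻¹) := ev_contDiff c⁻¹
  have hfφ : ∀ x, ev c⁻¹ x + C (ev c⁻¹ x) = x := by
    intro x
    rw [← hc (ev c⁻¹ x)]
    exact ev_inv' c x
  -- derivative of φ
  have hpos : ∀ x, 7 / 8 ≤ 1 + deriv C x ∧ 1 + deriv C x ≤ 9 / 8 := by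
    intro x
    have := abs_le.1 (hC1' x)
    constructor <;> linarith [this.1, this.2]
  have hφ1 : ∀ x, deriv (ev c⁻¹) x = (1 + deriv C (ev c⁻¹ x))⁻¹ := by
    intro x
    have h1 : HasDerivAt (ev c⁻¹) (deriv (ev c⁻¹) x) x := RAT_d1 _ hφ x
    have h2 : HasDerivAt (fun y => C (ev c⁻¹ y)) (deriv C (ev c⁻¹ x) * deriv (ev c⁻¹) x) x :=
      (RAT_d1 C hC (ev c⁻¹ x)).comp x h1
    have h3 : HasDerivAt (fun y => ev c⁻¹ y + C (ev c⁻¹ y)) (deriv (ev c⁻¹) x + deriv C (ev c⁻¹ x) * deriv (ev c⁻¹) x) x :=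
      h1.add h2
    have h4 : (fun y => ev c⁻¹ y + C (ev c⁻¹ y)) = fun y => y := by
      funext y; exact hfφ y
    rw [h4] at h3
    have h5 := h3.unique (hasDerivAt_id' x)
    have h6 := hpos (ev c⁻¹ x)
    have h7 : (1 + deriv C (ev c⁻¹ x)) * deriv (ev c⁻¹) x = 1 := by linarith
    exact eq_inv_of_mul_eq_one_right h7
  have hs0 : ∀ x, 0 < deriv (ev c⁻¹) x := by
    intro x
    rw [hφ1 x]
    have h6 := hpos (ev c⁻¹ x)
    exact inv_pos.2 (by linarith [h6.1])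
  have hs1 : ∀ x, deriv (ev c⁻¹) x ≤ 8 / 7 := by
    intro x
    rw [hφ1 x]
    have h6 := hpos (ev c⁻¹ x)
    rw [inv_le_comm₀ (by linarith [h6.1]) (by norm_num)]
    linarith [h6.1]
  -- second derivative of φ
  have hφ2 : ∀ x, d2 (ev c⁻¹) x = - (d2 C (ev c⁻¹ x) * deriv (ev c⁻¹) x ^ 3) := by
    intro x
    have h6 := hpos (ev c⁻¹ x)
    have h1 : HasDerivAt (ev c⁻¹) (deriv (ev c⁻¹) x) x := RAT_d1 _ hφ x
    have h2 : HasDerivAt (fun y => deriv C (ev c⁻¹ y)) (d2 C (ev c⁻¹ x) * deriv (ev c⁻¹) x) x :=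
      (RAT_d2 C hC (ev c⁻¹ x)).comp x h1
    have h3 : HasDerivAt (fun y => 1 + deriv C (ev c⁻¹ y)) (d2 C (ev c⁻¹ x) * deriv (ev c⁻¹) x) x := by
      simpa using h2.const_add 1
    have h4 : HasDerivAt (fun y => (1 + deriv C (ev c⁻¹ y))⁻¹)
        (-(d2 C (ev c⁻¹ x) * deriv (ev c⁻¹) x) / (1 + deriv C (ev c⁻¹ x)) ^ 2) x :=
      h3.fun_inv (by linarith [h6.1])
    have h5 : (fun y => (1 + deriv C (ev c⁻¹ y))⁻¹) = deriv (ev c⁻¹) := by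
      funext y; exact (hφ1 y).symm
    rw [h5] at h4
    have h7 := (RAT_d2 _ hφ x).unique h4
    rw [h7, div_eq_mul_inv, ← inv_pow, ← hφ1 x]
    ring
  -- the function D
  have hD : ContDiff ℝ 2 (fun x => X x - C x) := hX.sub hC
  have hD1 : ∀ x, deriv (fun x => X x - C x) x = deriv X x - deriv C x := by
    intro x
    exact ((RAT_d1 X hX x).sub (RAT_d1 C hC x)).deriv
  have hD1f : deriv (fun x => X x - C x) = fun x => deriv X x - deriv C x := funext hD1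
  have hD2 : ∀ x, d2 (fun x => X x - C x) x = d2 X x - d2 C x := by
    intro x
    have h : d2 (fun x => X x - C x) x = deriv (deriv (fun x => X x - C x)) x := rfl
    rw [h, hD1f]
    exact ((RAT_d2 X hX x).sub (RAT_d2 C hC x)).deriv
  -- the function Z
  have hZ : ContDiff ℝ 2 (fun x => X (ev c⁻¹ x) - C (ev c⁻¹ x)) := (hX.comp hφ).sub (hC.comp hφ)
  have hZ1 : ∀ x, deriv (fun x => X (ev c⁻¹ x) - C (ev c⁻¹ x)) x
      = (deriv X (ev c⁻¹ x) - deriv C (ev c⁻¹ x)) * deriv (ev c⁻¹) x := by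
    intro x
    have h1 : HasDerivAt (ev c⁻¹) (deriv (ev c⁻¹) x) x := RAT_d1 _ hφ x
    have h2 : HasDerivAt (fun y => X (ev c⁻¹ y)) (deriv X (ev c⁻¹ x) * deriv (ev c⁻¹) x) x :=
      (RAT_d1 X hX (ev c⁻¹ x)).comp x h1
    have h3 : HasDerivAt (fun y => C (ev c⁻¹ y)) (deriv C (ev c⁻¹ x) * deriv (ev c⁻¹) x) x :=
      (RAT_d1 C hC (ev c⁻¹ x)).comp x h1
    have h4 : HasDerivAt (fun y => X (ev c⁻¹ y) - C (ev c⁻¹ y))
        (deriv X (ev c⁻¹ x) * deriv (ev c⁻¹) x - deriv C (ev c⁻¹ x) * deriv (ev c⁻¹) x) x := h2.sub h3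
    rw [h4.deriv]
    ring
  have hZ2 : ∀ x, d2 (fun x => X (ev c⁻¹ x) - C (ev c⁻¹ x)) x
      = (d2 X (ev c⁻¹ x) - d2 C (ev c⁻¹ x)) * deriv (ev c⁻¹) x ^ 2
        - (deriv X (ev c⁻¹ x) - deriv C (ev c⁻¹ x)) * d2 C (ev c⁻¹ x) * deriv (ev c⁻¹) x ^ 3 := by
    intro x
    have h : d2 (fun x => X (ev c⁻¹ x) - C (ev c⁻¹ x)) x = deriv (deriv (fun x => X (ev c⁻¹ x) - C (ev c⁻¹ x))) x := rfl
    have h0 : deriv (fun x => X (ev c⁻¹ x) - C (ev c⁻¹ x))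
      = fun x => (deriv X (ev c⁻¹ x) - deriv C (ev c⁻¹ x)) * deriv (ev c⁻¹) x := funext hZ1
    have h1 : HasDerivAt (ev c⁻¹) (deriv (ev c⁻¹) x) x := RAT_d1 _ hφ x
    have h2 : HasDerivAt (fun y => deriv X (ev c⁻¹ y)) (d2 X (ev c⁻¹ x) * deriv (ev c⁻¹) x) x :=
      (RAT_d2 X hX (ev c⁻¹ x)).comp x h1
    have h3 : HasDerivAt (fun y => deriv C (ev c⁻¹ y)) (d2 C (ev c⁻¹ x) * deriv (ev c⁻¹) x) x :=
      (RAT_d2 C hC (ev c⁻¹ x)).comp x h1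
    have h4 : HasDerivAt (fun y => (deriv X (ev c⁻¹ y) - deriv C (ev c⁻¹ y)) * deriv (ev c⁻¹) y)
        ((d2 X (ev c⁻¹ x) * deriv (ev c⁻¹) x - d2 C (ev c⁻¹ x) * deriv (ev c⁻¹) x) * deriv (ev c⁻¹) x
          + (deriv X (ev c⁻¹ x) - deriv C (ev c⁻¹ x)) * d2 (ev c⁻¹) x) x :=
      (h2.sub h3).mul (RAT_d2 _ hφ x)
    rw [h, h0, h4.deriv, hφ2 x]
    ring
  refine ⟨fun x => X (ev c⁻¹ x) - C (ev c⁻¹ x), ?_, hZ, ?_, ?_, ?_, ?_⟩
  · intro x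
    rw [ev_mul, hg (ev c⁻¹ x)]
    have := hfφ x
    linarith
  · intro x hx
    have h1 : ev c x = x := by rw [hc x, (hsupp x hx).2, add_zero]
    have h2 : ev c⁻¹ x = x := by
      conv_lhs => rw [← h1]
      exact ev_inv c x
    show X (ev c⁻¹ x) - C (ev c⁻¹ x) = 0
    rw [h2, (hsupp x hx).1, (hsupp x hx).2, sub_zero]
  · intro e he x
    have he0 : 0 ≤ e := (abs_nonneg _).trans (he 0)
    obtain ⟨hE1, -, -, -⟩ := hBAS (fun x => X x - C x) p q e hD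
      (fun x hx => by show X x - C x = 0; rw [(hsupp x hx).1, (hsupp x hx).2, sub_zero])
      (fun x => by rw [hD2 x]; exact he x) hpq
    have hE : |deriv X (ev c⁻¹ x) - deriv C (ev c⁻¹ x)| ≤ e := by
      have h := hE1 (ev c⁻¹ x)
      rw [hD1] at h
      refine h.trans ?_
      nlinarith
    rw [hZ2 x]
    have s0 := hs0 x
    have s1 := hs1 x
    have s2 : deriv (ev c⁻¹) x ^ 2 ≤ 64 / 49 := by nlinarith
    have s3 : deriv (ev c⁻¹) x ^ 3 ≤ 512 / 343 := by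
      have h : deriv (ev c⁻¹) x ^ 3 = deriv (ev c⁻¹) x ^ 2 * deriv (ev c⁻¹) x := by ring
      rw [h]
      calc deriv (ev c⁻¹) x ^ 2 * deriv (ev c⁻¹) x ≤ 64 / 49 * (8 / 7) := mul_le_mul s2 s1 s0.le (by norm_num)
        _ = 512 / 343 := by norm_num
    have a1 : |(d2 X (ev c⁻¹ x) - d2 C (ev c⁻¹ x)) * deriv (ev c⁻¹) x ^ 2| ≤ e * (64 / 49) := by
      rw [abs_mul, abs_of_pos (by positivity : 0 < deriv (ev c⁻¹) x ^ 2)]
      exact mul_le_mul (he _) s2 (by positivity) he0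
    have a2 : |(deriv X (ev c⁻¹ x) - deriv C (ev c⁻¹ x)) * d2 C (ev c⁻¹ x) * deriv (ev c⁻¹) x ^ 3|
        ≤ e * (1 / 8) * (512 / 343) := by
      rw [abs_mul, abs_mul, abs_of_pos (by positivity : 0 < deriv (ev c⁻¹) x ^ 3)]
      exact mul_le_mul (mul_le_mul hE (hC2' _) (abs_nonneg _) he0) s3 (by positivity) (by positivity)
    have b1 := abs_le.1 a1
    have b2 := abs_le.1 a2
    rw [abs_le]
    constructor <;> nlinarith [b1.1, b1.2, b2.1, b2.2]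
  · intro e he x
    have he0 : 0 ≤ e := (abs_nonneg _).trans (he 0)
    rw [hZ1 x, abs_mul, abs_of_pos (hs0 x)]
    calc |deriv X (ev c⁻¹ x) - deriv C (ev c⁻¹ x)| * deriv (ev c⁻¹) x ≤ e * (8 / 7) :=
          mul_le_mul (he _) (hs1 x) (hs0 x).le he0
      _ ≤ 2 * e := by linarith
  · intro L hL hLX hLC x y
    have hlC : ∀ u v : ℝ, |C u - C v| ≤ 1 / 8 * |u - v| := RAT_mv C (deriv C) (RAT_d1 C hC) _ hC1'
    have hlC1 : ∀ u v : ℝ, |deriv C u - deriv C v| ≤ 1 / 8 * |u - v| := RAT_mv (deriv C) (d2 C) (RAT_d2 C hC) _ hC2'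
    have hlX1 : ∀ u v : ℝ, |deriv X u - deriv X v| ≤ 1 / 8 * |u - v| := RAT_mv (deriv X) (d2 X) (RAT_d2 X hX) _ hX2'
    have huv : |ev c⁻¹ x - ev c⁻¹ y| ≤ 8 / 7 * |x - y| := by
      have h1 := hfφ x
      have h2 := hfφ y
      have h3 := hlC (ev c⁻¹ x) (ev c⁻¹ y)
      have h4 : ev c⁻¹ x - ev c⁻¹ y = (x - y) - (C (ev c⁻¹ x) - C (ev c⁻¹ y)) := by linarith
      have h5 : |ev c⁻¹ x - ev c⁻¹ y| ≤ |x - y| + |C (ev c⁻¹ x) - C (ev c⁻¹ y)| := by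
        conv_lhs => rw [h4]
        exact abs_sub _ _
      linarith
    rw [hZ2 x, hZ2 y]
    have hst : |deriv (ev c⁻¹) x - deriv (ev c⁻¹) y| ≤ 3 / 16 * |x - y| := by
      have e1 := hφ1 x
      have e2 := hφ1 y
      have p1 := hpos (ev c⁻¹ x)
      have p2 := hpos (ev c⁻¹ y)
      have e3 : deriv (ev c⁻¹) x - deriv (ev c⁻¹) y
          = (deriv C (ev c⁻¹ y) - deriv C (ev c⁻¹ x)) * (deriv (ev c⁻¹) x * deriv (ev c⁻¹) y) := by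
        rw [e1, e2]
        have n1 : (1 + deriv C (ev c⁻¹ x)) ≠ 0 := by linarith [p1.1]
        have n2 : (1 + deriv C (ev c⁻¹ y)) ≠ 0 := by linarith [p2.1]
        field_simp
        ring
      rw [e3, abs_mul, abs_of_pos (mul_pos (hs0 x) (hs0 y))]
      have h1 := hlC1 (ev c⁻¹ y) (ev c⁻¹ x)
      rw [abs_sub_comm (ev c⁻¹ y) (ev c⁻¹ x)] at h1
      have h2 : deriv (ev c⁻¹) x * deriv (ev c⁻¹) y ≤ 8 / 7 * (8 / 7) :=
        mul_le_mul (hs1 x) (hs1 y) (hs0 y).le (by norm_num)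
      have h3 : |deriv C (ev c⁻¹ y) - deriv C (ev c⁻¹ x)| ≤ 1 / 8 * (8 / 7 * |x - y|) := by linarith
      calc |deriv C (ev c⁻¹ y) - deriv C (ev c⁻¹ x)| * (deriv (ev c⁻¹) x * deriv (ev c⁻¹) y)
          ≤ 1 / 8 * (8 / 7 * |x - y|) * (8 / 7 * (8 / 7)) :=
            mul_le_mul h3 h2 (mul_pos (hs0 x) (hs0 y)).le (by positivity)
        _ ≤ 3 / 16 * |x - y| := by nlinarith [abs_nonneg (x - y)]
    have hxy := abs_nonneg (x - y)
    refine RAT_lip L |x - y| _ _ _ _ _ _ _ _ hL hxy ?_ ?_ ?_ hst (hs0 x) (hs1 x) (hs0 y) (hs1 y) ?_ (hC2' _) (hC2' _) ?_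
    · have h1 := hLX (ev c⁻¹ x) (ev c⁻¹ y)
      have h2 := hLC (ev c⁻¹ x) (ev c⁻¹ y)
      have h3 : (d2 X (ev c⁻¹ x) - d2 C (ev c⁻¹ x)) - (d2 X (ev c⁻¹ y) - d2 C (ev c⁻¹ y))
          = (d2 X (ev c⁻¹ x) - d2 X (ev c⁻¹ y)) - (d2 C (ev c⁻¹ x) - d2 C (ev c⁻¹ y)) := by ring
      rw [h3]
      have h4 := abs_sub (d2 X (ev c⁻¹ x) - d2 X (ev c⁻¹ y)) (d2 C (ev c⁻¹ x) - d2 C (ev c⁻¹ y))
      have h5 : L * |ev c⁻¹ x - ev c⁻¹ y| ≤ L * (8 / 7 * |x - y|) := mul_le_mul_of_nonneg_left huv hL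
      linarith
    · exact (hLC _ _).trans (mul_le_mul_of_nonneg_left huv hL)
    · have h1 := hlX1 (ev c⁻¹ x) (ev c⁻¹ y)
      have h2 := hlC1 (ev c⁻¹ x) (ev c⁻¹ y)
      have h3 : (deriv X (ev c⁻¹ x) - deriv C (ev c⁻¹ x)) - (deriv X (ev c⁻¹ y) - deriv C (ev c⁻¹ y))
          = (deriv X (ev c⁻¹ x) - deriv X (ev c⁻¹ y)) - (deriv C (ev c⁻¹ x) - deriv C (ev c⁻¹ y)) := by ring
      rw [h3]
      have h4 := abs_sub (deriv X (ev c⁻¹ x) - deriv X (ev c⁻¹ y)) (deriv C (ev c⁻¹ x) - deriv C (ev c⁻¹ y))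
      linarith
    · have h4 := abs_sub (d2 X (ev c⁻¹ y)) (d2 C (ev c⁻¹ y))
      linarith [hX2' (ev c⁻¹ y), hC2' (ev c⁻¹ y)]
    · have h4 := abs_sub (deriv X (ev c⁻¹ y)) (deriv C (ev c⁻¹ y))
      linarith [hX1' (ev c⁻¹ y), hC1' (ev c⁻¹ y)]

end Pool.Agent.helper64.D2
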